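import Pool.Agent.Y712.AJ.Main

/-!
# The kernels of the complex and of the `p`-adic Abel–Jacobi maps

Let `C` be the Chow theory (with rational coefficients) of a class of smooth projective varieties over a
field `k` (for example all of them, over the field of rational numbers), `H` the Betti cohomology and
`T` Griffiths's Abel–Jacobi maps, with values in the intermediate Jacobians tensored with the rational
numbers; `H'` the `p`-adic étale cohomology and `T'` the `p`-adic Abel–Jacobi maps, with values in
continuous Galois cohomology. Let `can X` be the canonical class of `X` and `R` the class of the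
rational varieties.

1. The kernels of Griffiths's Abel–Jacobi maps are zero in `CH^i(X)_ℚ` for all `X` and `i` if and only
   if for all **rational** `X` and all `n ≥ 1`: if the power `K_X ^ n` of the **canonical class** is
   homologically trivial and its image in the intermediate Jacobian is torsion, then it is zero in
   `CH^n(X)_ℚ`. The same for the powers `v ^ n` of divisors on rational varieties of dimension `2 n`, and
   for the Chern classes of vector bundles on rational varieties.
2. The complex and the `p`-adic Abel–Jacobi map have the same kernel, for all `X` and `i`, if and only if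
   for all rational `X` and all `n ≥ 1`: `K_X ^ n` is in the kernel of one of them if and only if it is in
   the kernel of the other. The same for each of the two inclusions.

Proof: the kernels of the Abel–Jacobi maps form adequate equivalence relations, and two adequate
equivalence relations are compared with the help of vector bundles `E` with
`ch(E) = (r + 1) - e ^ K_X + n x` (library `Y101.Aq`).
-/

set_option autoImplicit false

open CategoryTheory AlgebraicGeometry

universe u v w w' w''

namespace Pool.Agent.Results.MP_e28333_ag.ComplexAndAdicKernels

open Pool.Agent.Y101.Aq Pool.Agent.H914 VarClass Obj Pool.Agent.W492.BB Pool.Agent.TH133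
  Pool.Agent.Y712.AJ

/-- **The complex Abel–Jacobi maps are injective up to torsion if and only if this is true for the powers
of the canonical classes of the rational varieties; the kernels of the complex and of the `p`-adic
Abel–Jacobi maps coincide if and only if they contain the same powers of the canonical classes of the
rational varieties.** -/
theorem result {k : Type u} [Field k] {𝒱 : VarClass k} {C : TheoryData.{u, v, 0} 𝒱 ℚ}
    [IsChowProj C] {K : Type w} [Field K] {H : WeilTheoryData.{u, v, w} C K} [IsWeilProj H]
    {T : AJData.{u, v, w'} C} (hT : IsAJ H T)
    {K' : Type w} [Field K'] {H' : WeilTheoryData.{u, v, w} C K'} [IsWeilProj H']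
    {T' : AJData.{u, v, w'} C} (hT' : IsAJ H' T')
    {D : BundleData.{u, v, w''} C} (hD : IsBundleTheory D) {can : ∀ X : 𝒱.Obj, C.A X}
    (hcan : IsCanonical D can) {R : 𝒱.Obj → Prop} (hR : IsRationalClass D R) :
    GlobalReduction D can R H T ∧
      (KerLe H T H' T' ↔ CanKerLe can R H T H' T') ∧
      (KerLe H' T' H T ↔ CanKerLe can R H' T' H T) ∧
      ((∀ (X : 𝒱.Obj) (i : ℕ) (a : C.A X), AJTrivial H T i a ↔ AJTrivial H' T' i a) ↔
        ∀ X, R X → ∀ n : ℕ, 1 ≤ n →
          (AJTrivial H T n (can X ^ n) ↔ AJTrivial H' T' n (can X ^ n))) := by
  have h1 := aj_compare hD hT hT' hcan hR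
  have h2 := aj_compare hD hT' hT hcan hR
  refine ⟨aj_global hD hT hcan hR, h1, h2, ?_⟩
  constructor
  · intro h X _ n _
    exact h X n _
  · intro h X i a
    exact ⟨h1.2 (fun X hX n hn => (h X hX n hn).1) X i a,
      h2.2 (fun X hX n hn => (h X hX n hn).2) X i a⟩

end Pool.Agent.Results.MP_e28333_ag.ComplexAndAdicKernels
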