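import Pool.Agent.Y112.QA.Main

/-!
# Abel–Jacobi maps and quotients of products

Let `C` be the Chow theory (with rational coefficients) of a class of smooth projective varieties
over a field `k` (for example over the field of rational numbers), and `T` the Abel–Jacobi maps (for
example Griffiths's maps, with values in the intermediate Jacobians tensored with the rational
numbers). Let the finite group `G` act on `X` and on `Y`, and let `Z` be a variety whose motive
contains the `G`-invariants of the motive of `X × Y`: the quotient `(X × Y)/G`, a resolution of it, or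
a variety which dominates it.

1. If `T` is injective on `Z` in codimension `i + j`, then it is injective in codimension `i` on the
   part of `X` belonging to the representation of `G` on the classes of codimension `j` on `Y` modulo
   numerical equivalence, and in codimension `j` on the part of `Y` belonging to the classes of
   codimension `i` on `X`. If `G` moves a class of codimension `j` on `Y` freely, the part of `X` is
   all of `X`.
2. If `Z` is the quotient and the diagonal of `Y` is decomposed (`Y` is for example a product of
   projective spaces, permuted by `G`), the injectivity on `Z` is equivalent to that on these parts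
   of `X`; if `G` moves a class on `Y` freely, it is equivalent to the injectivity on `X`.
3. The same for the inclusion of the kernel of an Abel–Jacobi map `T` in the kernel of another one
   `T'` (for example of the complex and of the `p`-adic ones).
-/

set_option autoImplicit false

open CategoryTheory AlgebraicGeometry

universe u v w w' x x'

namespace Pool.Agent.Results.MP_e28333_ag.QuotientsOfProducts

open Pool.Agent.H914 VarClass Obj Pool.Agent.W492.BB Pool.Agent.TH133 Pool.Agent.Y712.AJ
  Pool.Agent.Y112.QA

/-- **Abel–Jacobi maps and quotients of products.** -/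
theorem result {k : Type u} [Field k] {𝒱 : VarClass k} {C : TheoryData.{u, v, 0} 𝒱 ℚ}
    [IsChowProj C] {K : Type w} [Field K] {H : WeilTheoryData.{u, v, w} C K} (hH : H.IsClassMap)
    {T : AJData.{u, v, w'} C} (hT : IsAJ H T) {K' : Type x} [Field K']
    {H' : WeilTheoryData.{u, v, x} C K'} (hH' : H'.IsClassMap) {T' : AJData.{u, v, x'} C}
    (hT' : IsAJ H' T') {X Y : 𝒱.Obj} (Z : 𝒱.Obj) {G : Type} [Group G] [Fintype G]
    (ρ : GAct G X) (σ : GAct G Y) :
    ((ContainsInvariants C ρ σ Z → ∀ i j : ℕ, InjectiveIn H T Z (i + j) →
        InjectiveOnPart H T ρ σ i j ∧ InjectiveOnPart H T σ ρ j i ∧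
        (HasFreeClass C σ j → InjectiveIn H T X i)) ∧
      (∀ π : X.prod Y ⟶ Z, IsQuotient C ρ σ π → DecomposedDiagonal C Y →
        (∀ m : ℕ, InjectiveIn H T Z m ↔ ∀ i j : ℕ, i + j = m → InjectiveOnPart H T ρ σ i j) ∧
        ((∃ j, HasFreeClass C σ j) → (Injective H T Z ↔ Injective H T X)))) ∧
    ((ContainsInvariants C ρ σ Z → ∀ i j : ℕ, KerLeIn H T H' T' Z (i + j) →
        KerLeOnPart H T H' T' ρ σ i j ∧ KerLeOnPart H T H' T' σ ρ j i ∧
        (HasFreeClass C σ j → KerLeIn H T H' T' X i)) ∧
      (∀ π : X.prod Y ⟶ Z, IsQuotient C ρ σ π → DecomposedDiagonal C Y →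
        (∀ m : ℕ, KerLeIn H T H' T' Z m ↔
          ∀ i j : ℕ, i + j = m → KerLeOnPart H T H' T' ρ σ i j) ∧
        ((∃ j, HasFreeClass C σ j) →
          ((∀ m, KerLeIn H T H' T' Z m) ↔ ∀ i, KerLeIn H T H' T' X i)))) :=
  ⟨aj_quotients hH hT ρ σ Z, ker_quotients hH hT hH' hT' ρ σ Z⟩

end Pool.Agent.Results.MP_e28333_ag.QuotientsOfProducts
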